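import Mathlib
import Pool.Agent.Lib.MP_1d7ced_al.Transducer
import Pool.Agent.Lib.MP_1d7ced_al.Assembly

/-! MP_1d7ced_al: a minimal invertible transducer whose group is free non-abelian and level-transitive
is bireversible. -/

namespace Pool.Agent.Results.MP_1d7ced_al.MinimalBireversible

open Pool.Agent.MP1d7ced Pool.Agent.MP1d7ced.InvTransducer

universe u v

variable {Q : Type u} {A : Type v} (M : InvTransducer Q A)

lemma perm_append (q : Q) (w : List A) : ∃ q' : Q, ∀ z : List A, M.perm q (w ++ z) = M.perm q w ++ M.perm q' z := by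
  induction w generalizing q with
  | nil => exact ⟨q, fun z => rfl⟩
  | cons a w ih =>
    obtain ⟨q', hq'⟩ := ih (M.δ q a)
    refine ⟨q', fun z => ?_⟩
    show M.lam q a :: M.perm (M.δ q a) (w ++ z) = M.lam q a :: (M.perm (M.δ q a) w ++ M.perm q' z)
    rw [hq' z]

lemma perm_mem (q : Q) : M.perm q ∈ M.group := Subgroup.subset_closure ⟨q, rfl⟩

lemma length_apply {g : Equiv.Perm (List A)} (hg : g ∈ M.group) (w : List A) : (g w).length = w.length := by
  have key : ∀ (w : List A) (q : Q), (M.perm q w).length = w.length := by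
    intro w
    induction w with
    | nil => intro q; rfl
    | cons a w ih =>
      intro q
      show (M.lam q a :: M.perm (M.δ q a) w).length = (a :: w).length
      rw [List.length_cons, List.length_cons, ih]
  induction hg using Subgroup.closure_induction generalizing w with
  | mem x hx => obtain ⟨q, rfl⟩ := hx; exact key w q
  | one => rfl
  | mul x y _ _ hx hy => rw [Equiv.Perm.mul_apply, hx, hy]
  | inv x _ hx =>
    have := hx (x⁻¹ w)
    rw [← this]
    simp

lemma exists_sec {g : Equiv.Perm (List A)} (hg : g ∈ M.group) (w : List A) :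
    ∃ h ∈ M.group, ∀ z : List A, g (w ++ z) = g w ++ h z := by
  induction hg using Subgroup.closure_induction generalizing w with
  | mem x hx =>
    obtain ⟨q, rfl⟩ := hx
    obtain ⟨q', hq'⟩ := perm_append M q w
    exact ⟨_, perm_mem M q', hq'⟩
  | one => exact ⟨1, one_mem _, fun z => rfl⟩
  | mul x y _ _ hx hy =>
    obtain ⟨k, hk, hk'⟩ := hy w
    obtain ⟨l, hl, hl'⟩ := hx (y w)
    refine ⟨l * k, mul_mem hl hk, fun z => ?_⟩
    rw [Equiv.Perm.mul_apply, Equiv.Perm.mul_apply, Equiv.Perm.mul_apply, hk', hl']
  | inv x _ hx =>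
    obtain ⟨k, hk, hk'⟩ := hx (x⁻¹ w)
    refine ⟨k⁻¹, inv_mem hk, fun z => ?_⟩
    apply x.injective
    rw [hk' (k⁻¹ z)]
    simp

/-- the self-similar action of the group of a transducer -/
noncomputable def selfSim : SelfSim M.group A where
  act g w := g.1 w
  sec g w := ⟨(exists_sec M g.2 w).choose, (exists_sec M g.2 w).choose_spec.1⟩
  act_one w := rfl
  act_mul g h w := rfl
  act_append g w z := (exists_sec M g.2 w).choose_spec.2 z
  length_act g w := length_apply M g.2 w
  faithful g h := Subtype.ext (Equiv.ext h)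

lemma sec_eq {g h : M.group} {w : List A} (H : ∀ z, g.1 (w ++ z) = g.1 w ++ h.1 z) : (selfSim M).sec g w = h := by
  apply (selfSim M).ext'
  intro z
  have h1 := (selfSim M).act_append g w z
  have h2 : (selfSim M).act g (w ++ z) = (selfSim M).act g w ++ (selfSim M).act h z := H z
  rw [h2] at h1
  exact (List.append_cancel_left h1).symm

/-- a state as an element of the group -/
def st (q : Q) : M.group := ⟨M.perm q, perm_mem M q⟩

lemma sec_st (q : Q) (a : A) : (selfSim M).sec (st M q) [a] = st M (M.δ q a) :=
  sec_eq M fun _ => rfl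

lemma act_st (q : Q) (a : A) : (selfSim M).act (st M q) [a] = [M.lam q a] := rfl

theorem sections_injective [Finite Q] [Finite A] (hfree : IsFreeGroup M.group)
    (hnab : ∃ g h : M.group, g * h ≠ h * g) (htr : M.LevelTransitive) {g : M.group} {a : A}
    (hg : (selfSim M).sec g [a] = 1) : g = 1 := by
  let S : Set M.group := {g | ∃ q, g = st M q ∨ g = (st M q)⁻¹}
  have hfin : S.Finite := by
    have h1 : (Set.range (st M) ∪ Set.range (fun q => (st M q)⁻¹)).Finite :=
      (Set.finite_range _).union (Set.finite_range _)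
    refine h1.subset ?_
    rintro g ⟨q, rfl | rfl⟩
    · exact Or.inl ⟨q, rfl⟩
    · exact Or.inr ⟨q, rfl⟩
  have hinv : ∀ s ∈ S, s⁻¹ ∈ S := by
    rintro s ⟨q, rfl | rfl⟩
    · exact ⟨q, Or.inr rfl⟩
    · exact ⟨q, Or.inl (inv_inv _)⟩
  have hgen : Subgroup.closure S = ⊤ := by
    have h1 : Subgroup.closure ((fun g : M.group => g.1) ⁻¹' (Set.range M.perm)) = ⊤ :=
      Subgroup.closure_closure_coe_preimage (k := Set.range M.perm)
    rw [eq_top_iff, ← h1]
    apply Subgroup.closure_mono
    rintro g ⟨q, hq⟩
    exact ⟨q, Or.inl (Subtype.ext hq.symm)⟩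
  have hS1 : ∀ q u, ∃ q', (selfSim M).sec (st M q) u = st M q' := by
    intro q u
    obtain ⟨q', hq'⟩ := perm_append M q u
    exact ⟨q', sec_eq M hq'⟩
  have hS : ∀ s ∈ S, ∀ u, (selfSim M).sec s u ∈ S := by
    rintro s ⟨q, rfl | rfl⟩ u
    · obtain ⟨q', hq'⟩ := hS1 q u
      exact ⟨q', Or.inl hq'⟩
    · obtain ⟨q', hq'⟩ := hS1 q ((selfSim M).act (st M q)⁻¹ u)
      refine ⟨q', Or.inr ?_⟩
      rw [← hq', ← (selfSim M).sec_inv, (selfSim M).act_act_inv]
  have htr' : (selfSim M).Transitive := by
    intro u w huw
    obtain ⟨g, hg, hgu⟩ := htr u.length u w rfl huw.symm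
    exact ⟨⟨g, hg⟩, hgu⟩
  exact selfSim_main (selfSim M) (by
    obtain ⟨a, b, hab⟩ := hnab
    exact ⟨a, b, hab⟩) htr' hfin hinv hgen hS hg

/-- **Main theorem.** A minimal invertible transducer (with finitely many states over a finite alphabet,
possibly with a sink) whose group is free, non-abelian and transitive on every level of the tree is
bireversible. -/
theorem result {Q : Type u} {A : Type v} [Finite Q] [Finite A] (M : InvTransducer Q A)
    (hmin : M.Minimal) (hfree : IsFreeGroup M.group) (hnab : ∃ g h : M.group, g * h ≠ h * g)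
    (htr : M.LevelTransitive) : M.Bireversible := by
  constructor
  · intro a
    apply Function.Injective.bijective_of_finite
    intro p q hpq
    simp only at hpq
    apply hmin
    have h1 : st M p * (st M q)⁻¹ = 1 := by
      apply sections_injective M hfree hnab htr (a := M.lam q a)
      have e : [M.lam q a] = (selfSim M).act (st M q) [a] := rfl
      rw [(selfSim M).sec_mul, e, (selfSim M).act_inv_act, (selfSim M).sec_inv, sec_st, sec_st, hpq,
        mul_inv_cancel]
    rw [mul_inv_eq_one] at h1
    exact congrArg Subtype.val h1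
  · intro b
    apply Function.Injective.bijective_of_finite
    intro p q hpq
    simp only at hpq
    apply hmin
    have h1 : (st M p)⁻¹ * st M q = 1 := by
      apply sections_injective M hfree hnab htr (a := (M.lam q).symm b)
      have e1 : (selfSim M).act (st M q) [(M.lam q).symm b] = (selfSim M).act (st M p) [(M.lam p).symm b] := by
        rw [act_st, act_st, Equiv.apply_symm_apply, Equiv.apply_symm_apply]
      rw [(selfSim M).sec_mul, e1, (selfSim M).sec_inv, sec_st, sec_st, hpq, inv_mul_cancel]
    rw [inv_mul_eq_one] at h1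
    exact congrArg Subtype.val h1

end Pool.Agent.Results.MP_1d7ced_al.MinimalBireversible
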